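import Mathlib

/-!
Arithmetic for MP_f1f170_co: the parameters `t = |G[2]|`, `m = |A|`, `N = |2G|`,
`u = |G[2] ∩ 2G|`, `K` = number of ordered pairs in one class modulo `2G`.
-/

namespace Pool.Agent.H54SID

theorem u_one_big (t m N u K : ℕ) (hm : 128 ≤ m) (htm : t < m) (h5 : 4 * m < 5 * t)
    (hn2 : t * N ≤ m * m + m) (hmN : m ≤ N) (hu : u ≤ N - t) (h2 : 2 ≤ u)
    (hK : K + 2 * m ≤ 2 * N)
    (hs : m * m + u * (t + N) ≤ u * (m + K + u) + t * N) : False := by
  have h4 : 4 * N ≤ 5 * m + 4 := by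
    by_contra hc
    push Not at hc
    have h1 : 5 * t * (4 * N) ≤ 20 * (m * m + m) := by nlinarith
    have h3 : (4 * m + 1) * (5 * m + 5) ≤ 5 * t * (4 * N) :=
      Nat.mul_le_mul (by omega) (by omega)
    nlinarith
  zify at *
  have hu' : (u : ℤ) ≤ N - t := by
    have : t ≤ N := by omega
    rw [Nat.cast_sub this] at hu
    exact hu
  -- `u (t + m - N - u) ≤ m`
  have h6 : (u : ℤ) * (t + m - N - u) ≤ m := by
    have h7 : (u : ℤ) * K ≤ u * (2 * N - 2 * m) :=
      mul_le_mul_of_nonneg_left (by linarith) (by linarith)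
    nlinarith
  have h8 : (0 : ℤ) ≤ (u - 2) * (N - t - u) := mul_nonneg (by linarith) (by linarith)
  have h9 : (0 : ℤ) ≤ (u - 2) * (2 * t + m - 2 * N - 2) :=
    mul_nonneg (by linarith) (by linarith)
  nlinarith

theorem last_big (t m N : ℕ) (ht : 512 ≤ t) (htm : t < m) (h7 : 6 * m < 7 * t)
    (hn2 : t * N ≤ m * m + m) (hc : m * m + 6 * m + t ≤ 5 * N + t * N + 1) : False := by
  have h1 : t * (m * m + 6 * m + t) ≤ 5 * (t * N) + t * (t * N) + t := by
    calc t * (m * m + 6 * m + t) ≤ t * (5 * N + t * N + 1) := Nat.mul_le_mul_left _ hc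
      _ = 5 * (t * N) + t * (t * N) + t := by ring
  have h2 : t * (t * N) ≤ t * (m * m + m) := Nat.mul_le_mul_left _ hn2
  have h3 : 5 * t * m + t * t ≤ 5 * (m * m) + 5 * m + t := by nlinarith
  zify at *
  have h4 : (0 : ℤ) ≤ (7 * t - 6 * m - 1) * (m - t) := mul_nonneg (by linarith) (by linarith)
  nlinarith

end Pool.Agent.H54SID
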