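import Pool.Agent.Helper13_Sid.Cls

/-!
Sidon sets with at most `2|A|` non-differences in a group with many involutions
(MP_f1f170_co).  `π : G →+ Q` is a homomorphism onto `Q` with kernel `2G`.
-/

namespace Pool.Agent.H54SID

open Finset Pool.Agent.Sid13

variable {G : Type*} [AddCommGroup G] [Fintype G] [DecidableEq G]
variable {Q : Type*} [AddCommGroup Q] [Fintype Q] [DecidableEq Q]

/-- The elements `g` with `2g = 0`. -/
def TT (G : Type*) [AddCommGroup G] [Fintype G] [DecidableEq G] : Finset G :=
  univ.filter fun g => g + g = 0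

/-- The kernel of `π`. -/
def HH (π : G →+ Q) : Finset G := univ.filter fun g => π g = 0

/-- The doubles of the elements of `A`. -/
def SS (A : Finset G) : Finset G := A.image fun a => a + a

/-- The ordered pairs of distinct elements of `A` in the same class. -/
def PP (A : Finset G) (π : G →+ Q) : Finset (G × G) :=
  A.offDiag.filter fun x => π x.1 = π x.2

/-- The non-differences outside `T` and `H`. -/
def RR (A : Finset G) (π : G →+ Q) : Finset G :=
  (Dm A).filter fun x => x ∉ TT G ∧ x ∉ HH π

theorem mem_TT {x : G} : x ∈ TT G ↔ x + x = 0 := by simp [TT]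

theorem mem_HH {π : G →+ Q} {x : G} : x ∈ HH π ↔ π x = 0 := by simp [HH]

theorem mem_SS {A : Finset G} {x : G} : x ∈ SS A ↔ ∃ a ∈ A, a + a = x := by simp [SS]

theorem SS_sub (A : Finset G) (π : G →+ Q) (hk : ∀ x, π x = 0 ↔ ∃ y, y + y = x) :
    SS A ⊆ HH π := by
  intro x hx
  obtain ⟨a, _, rfl⟩ := mem_SS.1 hx
  exact mem_HH.2 ((hk _).2 ⟨a, rfl⟩)

theorem card_SS {A : Finset G} (hA : IsSidon A) : (SS A).card = A.card := by
  apply Finset.card_image_of_injOn
  intro a ha b hb h
  exact hA.dbl_inj ha hb h

/-- `2` kills the classes -/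
theorem pi_neg (π : G →+ Q) (hk : ∀ x, π x = 0 ↔ ∃ y, y + y = x) (c : G) : -π c = π c := by
  have h2 : π (c + c) = 0 := (hk _).2 ⟨c, rfl⟩
  rw [map_add] at h2
  exact neg_eq_of_add_eq_zero_left h2

/-- a nonzero element of order two is not a difference -/
theorem TT_sub {A : Finset G} (hA : IsSidon A) {x : G} (hx : x ∈ TT G) (h0 : x ≠ 0) :
    x ∈ Dm A := by
  rw [mem_Dm]
  refine ⟨h0, ?_⟩
  rintro a ha b hb rfl
  have h1 : a + a = b + b := by
    have h2 : a - b + (a - b) = 0 := mem_TT.1 hx
    have h3 : a + a - (b + b) = 0 := by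
      rw [← h2]; abel
    exact sub_eq_zero.1 h3
  have := hA.dbl_inj ha hb h1
  exact h0 (sub_eq_zero.2 this)

/-- (F2) -/
theorem card_PP_le {A : Finset G} (hA : IsSidon A) (π : G →+ Q)
    (hk : ∀ x, π x = 0 ↔ ∃ y, y + y = x) :
    (PP A π).card ≤ 2 * (HH π \ SS A).card := by
  refine Finset.card_le_mul_card_image_of_maps_to (f := fun x : G × G => x.1 + x.2) ?_ _ ?_
  · rintro ⟨a, b⟩ hx
    simp only [PP, mem_filter, mem_offDiag] at hx
    obtain ⟨⟨ha, hb, hab⟩, hπ⟩ := hx
    rw [mem_sdiff, mem_HH, mem_SS]
    constructor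
    · simp only [map_add]
      rw [hπ]
      nth_rewrite 1 [← pi_neg π hk b]
      exact neg_add_cancel _
    · rintro ⟨c, hc, h⟩
      rcases hA a ha b hb c hc c hc h.symm with h2 | h2
      · exact hab (h2.1.trans h2.2.symm)
      · exact hab (h2.1.trans h2.2.symm)
  · intro c _
    by_cases hne : ((PP A π).filter fun x => x.1 + x.2 = c).Nonempty
    · obtain ⟨⟨a, b⟩, hab⟩ := hne
      have hsub : ((PP A π).filter fun x => x.1 + x.2 = c) ⊆ {(a, b), (b, a)} := by
        rintro ⟨a', b'⟩ h'
        simp only [PP, mem_filter, mem_offDiag] at hab h'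
        have := hA a' h'.1.1.1 b' h'.1.1.2.1 a hab.1.1.1 b hab.1.1.2.1
          (h'.2.trans hab.2.symm)
        simp only [mem_insert, mem_singleton, Prod.mk.injEq]
        exact this
      exact (Finset.card_le_card hsub).trans Finset.card_le_two
    · rw [Finset.not_nonempty_iff_eq_empty] at hne
      rw [hne]; simp

/-- the non-differences in `H` -/
theorem card_HH_Dm {A : Finset G} (hA : IsSidon A) (π : G →+ Q) :
    (HH π).card = 1 + (PP A π).card + (HH π ∩ Dm A).card := by
  have h1 : ((PP A π).image fun x => x.1 - x.2).card = (PP A π).card := by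
    apply Finset.card_image_of_injOn
    rintro ⟨a, b⟩ h ⟨c, d⟩ h' he
    simp only [PP, Finset.coe_filter, Set.mem_ofPred_eq, mem_offDiag] at h h'
    have := hA.diff_unique h.1.1 h.1.2.1 h'.1.1 h'.1.2.1 h.1.2.2 he
    exact Prod.ext this.1 this.2
  have h2 : HH π = {0} ∪ (((PP A π).image fun x => x.1 - x.2) ∪ (HH π ∩ Dm A)) := by
    ext x
    simp only [mem_union, mem_singleton, mem_image, mem_inter, Prod.exists]
    constructor
    · intro hx
      by_cases h0 : x = 0
      · exact Or.inl h0
      · right
        by_cases hD : x ∈ Dm A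
        · exact Or.inr ⟨hx, hD⟩
        · obtain ⟨a, ha, b, hb, hab⟩ := exists_diff h0 hD
          left
          refine ⟨a, b, ?_, hab⟩
          simp only [PP, mem_filter, mem_offDiag]
          refine ⟨⟨ha, hb, ?_⟩, ?_⟩
          · rintro rfl
            exact h0 (by rw [← hab, sub_self])
          · have := mem_HH.1 hx
            rw [← hab, map_sub, sub_eq_zero] at this
            exact this
    · rintro (rfl | ⟨a, b, h, rfl⟩ | ⟨h, _⟩)
      · exact mem_HH.2 (map_zero π)
      · simp only [PP, mem_filter, mem_offDiag] at h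
        rw [mem_HH, map_sub, sub_eq_zero]
        exact h.2
      · exact h
  have h3 : Disjoint ((PP A π).image fun x => x.1 - x.2) (HH π ∩ Dm A) := by
    rw [Finset.disjoint_left]
    intro x hx hx'
    simp only [mem_image, Prod.exists, PP, mem_filter, mem_offDiag] at hx
    obtain ⟨a, b, ⟨⟨ha, hb, hab⟩, _⟩, rfl⟩ := hx
    exact (mem_Dm.1 (mem_inter.1 hx').2).2 a ha b hb rfl
  have h4 : Disjoint ({0} : Finset G)
      (((PP A π).image fun x => x.1 - x.2) ∪ (HH π ∩ Dm A)) := by
    rw [Finset.disjoint_singleton_left]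
    simp only [mem_union, mem_image, Prod.exists, not_or, PP, mem_filter, mem_offDiag, mem_inter]
    constructor
    · rintro ⟨a, b, ⟨⟨ha, hb, hab⟩, _⟩, h⟩
      exact hab (sub_eq_zero.1 h)
    · intro h
      exact (mem_Dm.1 h.2).1 rfl
  have h5 : (HH π).card = 1 + ((PP A π).card + (HH π ∩ Dm A).card) := by
    conv_lhs => rw [h2]
    rw [Finset.card_union_of_disjoint h4, Finset.card_union_of_disjoint h3, h1,
      Finset.card_singleton]
  omega

/-- (F3) -/
theorem card_RR {A : Finset G} (hA : IsSidon A) (π : G →+ Q) :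
    (RR A π).card + (TT G).card + (HH π ∩ Dm A).card =
      (Dm A).card + (TT G ∩ HH π).card := by
  classical
  have h0T : (0 : G) ∈ TT G := by rw [mem_TT]; simp
  have h0H : (0 : G) ∈ TT G ∩ HH π := by
    rw [mem_inter]; exact ⟨h0T, mem_HH.2 (map_zero π)⟩
  have h1 : (Dm A).card = (RR A π).card +
      ((Dm A).filter fun x => ¬ (x ∉ TT G ∧ x ∉ HH π)).card :=
    (Finset.card_filter_add_card_filter_not _).symm
  have h2 : ((Dm A).filter fun x => ¬ (x ∉ TT G ∧ x ∉ HH π)) =
      ((TT G).erase 0) ∪ (HH π ∩ Dm A) := by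
    ext x
    simp only [mem_filter, mem_union, mem_erase, mem_inter, not_and_or, not_not]
    constructor
    · rintro ⟨hD, h | h⟩
      · exact Or.inl ⟨(mem_Dm.1 hD).1, h⟩
      · exact Or.inr ⟨h, hD⟩
    · rintro (⟨h0, h⟩ | ⟨h, hD⟩)
      · exact ⟨TT_sub hA h h0, Or.inl h⟩
      · exact ⟨hD, Or.inr h⟩
  have h3 : ((TT G).erase 0) ∩ (HH π ∩ Dm A) = (TT G ∩ HH π).erase 0 := by
    ext x
    simp only [mem_erase, mem_inter]
    constructor
    · rintro ⟨⟨h0, h⟩, h', _⟩
      exact ⟨h0, h, h'⟩
    · rintro ⟨h0, h, h'⟩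
      exact ⟨⟨h0, h⟩, h', TT_sub hA h h0⟩
  have h4 := Finset.card_union_add_card_inter ((TT G).erase 0) (HH π ∩ Dm A)
  rw [h3, Finset.card_erase_of_mem h0T, Finset.card_erase_of_mem h0H, ← h2] at h4
  have h5 : 0 < (TT G).card := Finset.card_pos.2 ⟨0, h0T⟩
  have h6 : 0 < (TT G ∩ HH π).card := Finset.card_pos.2 ⟨0, h0H⟩
  omega

/-- If `A` is larger than the sum of the four bad sets there is a good element. -/
theorem exists_good {A : Finset G} (hA : IsSidon A) (π : G →+ Q)
    (hk : ∀ x, π x = 0 ↔ ∃ y, y + y = x) {h : G} (hh : h ∈ HH π)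
    (hc : (PP A π).card + 2 * (HH π \ SS A).card + (RR A π).card < A.card) :
    ∃ b ∈ A, (∀ a ∈ A, π a = π b → a = b) ∧ b + b + h ∈ SS A ∧ b + b + (h + h) ∈ SS A ∧
      ∀ a ∈ A, b + h - a ∉ RR A π := by
  classical
  by_contra hcon
  push Not at hcon
  let B1 : Finset G := A.filter fun b => ¬ ∀ a ∈ A, π a = π b → a = b
  let B2 : Finset G := A.filter fun b => b + b + h ∉ SS A
  let B3 : Finset G := A.filter fun b => b + b + (h + h) ∉ SS A
  let B4 : Finset G := A.filter fun b => ∃ a ∈ A, b + h - a ∈ RR A π
  have hsub : A ⊆ B1 ∪ (B2 ∪ (B3 ∪ B4)) := by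
    intro b hb
    simp only [mem_union, B1, B2, B3, B4, mem_filter]
    by_cases h1 : ∀ a ∈ A, π a = π b → a = b
    · by_cases h2 : b + b + h ∈ SS A
      · by_cases h3 : b + b + (h + h) ∈ SS A
        · exact Or.inr (Or.inr (Or.inr ⟨hb, hcon b hb h1 h2 h3⟩))
        · exact Or.inr (Or.inr (Or.inl ⟨hb, h3⟩))
      · exact Or.inr (Or.inl ⟨hb, h2⟩)
    · exact Or.inl ⟨hb, h1⟩
  have c1 : B1.card ≤ (PP A π).card := by
    have : B1 ⊆ (PP A π).image fun x => x.2 := by
      intro b hb
      simp only [B1, mem_filter] at hb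
      obtain ⟨hb, h1⟩ := hb
      push Not at h1
      obtain ⟨a, ha, h2, h3⟩ := h1
      rw [mem_image]
      exact ⟨(a, b), by simp only [PP, mem_filter, mem_offDiag]; exact ⟨⟨ha, hb, h3⟩, h2⟩, rfl⟩
    exact (Finset.card_le_card this).trans Finset.card_image_le
  have key : ∀ k ∈ HH π, (A.filter fun b => b + b + k ∉ SS A).card ≤ (HH π \ SS A).card := by
    intro k hk'
    refine Finset.card_le_card_of_injOn (fun b => b + b + k) ?_ ?_
    · intro b hb
      simp only [coe_filter, Set.mem_ofPred_eq] at hb
      simp only [coe_sdiff, Set.mem_diff, mem_coe]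
      refine ⟨?_, hb.2⟩
      rw [mem_HH, map_add, mem_HH.1 hk', add_zero]
      exact (hk _).2 ⟨b, rfl⟩
    · intro b hb c hc' hbc
      simp only [coe_filter, Set.mem_ofPred_eq] at hb hc'
      exact hA.dbl_inj hb.1 hc'.1 (add_right_cancel hbc)
  have c2 : B2.card ≤ (HH π \ SS A).card := key h hh
  have c3 : B3.card ≤ (HH π \ SS A).card := by
    refine key (h + h) ?_
    rw [mem_HH, map_add, mem_HH.1 hh, add_zero]
  have c4 : B4.card ≤ (RR A π).card := by
    have hex : ∀ b ∈ B4, ∃ a ∈ A, b + h - a ∈ RR A π := by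
      intro b hb
      exact (mem_filter.1 hb).2
    refine Finset.card_le_card_of_injOn
      (fun b => if hb : b ∈ B4 then b + h - (hex b hb).choose else 0) ?_ ?_
    · intro b hb
      have hb' : b ∈ B4 := hb
      simp only [dif_pos hb']
      exact (hex b hb').choose_spec.2
    · intro b hb c hc' hbc
      have hb' : b ∈ B4 := hb
      have hc'' : c ∈ B4 := hc'
      simp only [dif_pos hb', dif_pos hc''] at hbc
      have s1 := (hex b hb').choose_spec
      have s2 := (hex c hc'').choose_spec
      have e1 : b - (hex b hb').choose = c - (hex c hc'').choose := by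
        have : b + h - (hex b hb').choose - h = c + h - (hex c hc'').choose - h := by rw [hbc]
        calc b - (hex b hb').choose = b + h - (hex b hb').choose - h := by abel
          _ = c + h - (hex c hc'').choose - h := this
          _ = c - (hex c hc'').choose := by abel
      have hne : b ≠ (hex b hb').choose := by
        intro hcc
        have h5 := s1.2
        rw [← hcc] at h5
        have h6 : b + h - b = h := by abel
        rw [h6] at h5
        simp only [RR, mem_filter] at h5
        exact h5.2.2 hh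
      exact (hA.diff_unique (mem_filter.1 hb').1 s1.1 (mem_filter.1 hc'').1 s2.1 hne e1).1
  have h1 := Finset.card_le_card hsub
  have h2 := Finset.card_union_le B1 (B2 ∪ (B3 ∪ B4))
  have h3 := Finset.card_union_le B2 (B3 ∪ B4)
  have h4 := Finset.card_union_le B3 B4
  omega

/-- The parity of a good element. -/
theorem good_parity {A : Finset G} (hA : IsSidon A) (π : G →+ Q)
    (hk : ∀ x, π x = 0 ↔ ∃ y, y + y = x) {h b : G} (hh : h ∈ HH π) (hT : h ∉ TT G)
    (hb : b ∈ A) (h1 : ∀ a ∈ A, π a = π b → a = b) (h2 : b + b + h ∈ SS A)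
    (h3 : b + b + (h + h) ∈ SS A) (h4 : ∀ a ∈ A, b + h - a ∉ RR A π) :
    Even (2 + (if h ∈ Dm A then 1 else 0) + A.card) := by
  classical
  have hh0 : h ≠ 0 := by
    rintro rfl
    exact hT (by rw [mem_TT]; simp)
  have hπ : π (b + h) = π b := by rw [map_add, mem_HH.1 hh, add_zero]
  have hgA : b + h ∉ A := by
    intro hm
    have := h1 _ hm hπ
    exact hh0 (by simpa using this)
  have hpar := parity hA hgA
  -- tt
  obtain ⟨a1, ha1, e1⟩ := mem_SS.1 h2
  have htt : tt A (b + h) = 1 := by
    have : (A.filter fun a => a + a - (b + h) ∈ A) = {a1} := by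
      ext a
      simp only [mem_filter, mem_singleton]
      constructor
      · rintro ⟨ha, hm⟩
        have h5 := h1 _ hm (by rw [pi_dbl π hk, hπ])
        have h6 : a + a = a1 + a1 := by
          rw [e1]
          calc a + a = a + a - (b + h) + (b + h) := by abel
            _ = b + (b + h) := by rw [h5]
            _ = b + b + h := by abel
        exact hA.dbl_inj ha ha1 h6
      · rintro rfl
        refine ⟨ha1, ?_⟩
        rw [e1]
        have : b + b + h - (b + h) = b := by abel
        rw [this]; exact hb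
    rw [tt, this, card_singleton]
  -- rr
  obtain ⟨a0, ha0, e0⟩ := mem_SS.1 h3
  have ha0b : a0 ≠ b := by
    rintro rfl
    apply hT
    rw [mem_TT]
    have : a0 + a0 + 0 = a0 + a0 + (h + h) := by rw [add_zero]; exact e0
    exact (add_left_cancel this).symm
  have ha0D : b + h - a0 ∈ Dm A := by
    apply TT_sub hA
    · rw [mem_TT]
      calc b + h - a0 + (b + h - a0) = b + b + (h + h) - (a0 + a0) := by abel
        _ = 0 := by rw [e0, sub_self]
    · intro h0
      exact hgA (by rw [sub_eq_zero.1 h0]; exact ha0)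
  have hrr : rr A (b + h) = 1 + if h ∈ Dm A then 1 else 0 := by
    have hset : (A.filter fun a => b + h - a ∈ Dm A) =
        if h ∈ Dm A then {a0, b} else {a0} := by
      ext a
      have hcase : a ∈ A → b + h - a ∈ Dm A → a = a0 ∨ a = b := by
        intro ha hD
        by_contra hne
        push Not at hne
        refine h4 a ha ?_
        simp only [RR, mem_filter]
        refine ⟨hD, ?_, ?_⟩
        · intro h5
          apply hne.1
          apply hA.dbl_inj ha ha0
          rw [e0]
          have h6 : b + h - a + (b + h - a) = 0 := mem_TT.1 h5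
          have h7 : b + b + (h + h) - (a + a) = 0 := by
            rw [← h6]; abel
          exact (sub_eq_zero.1 h7).symm
        · intro h5
          apply hne.2
          apply h1 a ha
          have h6 := mem_HH.1 h5
          rw [map_sub, hπ, sub_eq_zero] at h6
          exact h6.symm
      split_ifs with hD
      · simp only [mem_filter, mem_insert, mem_singleton]
        constructor
        · rintro ⟨ha, hm⟩
          exact hcase ha hm
        · rintro (rfl | rfl)
          · exact ⟨ha0, ha0D⟩
          · refine ⟨hb, ?_⟩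
            have : a + h - a = h := by abel
            rw [this]; exact hD
      · simp only [mem_filter, mem_singleton]
        constructor
        · rintro ⟨ha, hm⟩
          rcases hcase ha hm with h5 | h5
          · exact h5
          · exfalso
            apply hD
            rw [h5] at hm
            have : b + h - b = h := by abel
            rw [this] at hm
            exact hm
        · rintro rfl
          exact ⟨ha0, ha0D⟩
    rw [rr, hset]
    split_ifs
    · rw [Finset.card_pair ha0b]
    · rw [Finset.card_singleton]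
  rw [htt, hrr] at hpar
  obtain ⟨k, hk'⟩ := hpar
  exact ⟨k, by omega⟩

end Pool.Agent.H54SID
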