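import Pool.Agent.Helper54_SID.Ar

/-!
Arithmetic for MP_f1f170_co, small parameters.
-/

namespace Pool.Agent.H54SID

theorem u_one_small (r t m N u K : ℕ) (hr : r ≤ 6) (ht : t = 2 ^ r) (htm : t < m)
    (h5 : 4 * m < 5 * t) (hn1 : m * m + 1 ≤ t * N + m) (hn2 : t * N ≤ m * m + m) (hmN : m ≤ N)
    (hdt : u ∣ t) (hdN : u ∣ N) (hu : u ≤ N - t) (h2 : 2 ≤ u) (hK : K + 2 * m ≤ 2 * N)
    (hs : m * m + u * (t + N) ≤ u * (m + K + u) + t * N) : False := by
  rw [ht] at hdt
  obtain ⟨k, hk, rfl⟩ := (Nat.dvd_prime_pow Nat.prime_two).1 hdt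
  interval_cases r
  · norm_num at ht; subst ht; omega
  · norm_num at ht; subst ht; omega
  · norm_num at ht; subst ht; omega
  · norm_num at ht; subst ht
    have : m < 10 := by omega
    interval_cases m
    all_goals interval_cases k <;> norm_num at * <;> omega
  · norm_num at ht; subst ht
    have : m < 20 := by omega
    interval_cases m
    all_goals interval_cases k <;> norm_num at * <;> omega
  · norm_num at ht; subst ht
    have : m < 40 := by omega
    interval_cases m
    all_goals interval_cases k <;> norm_num at * <;> omega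
  · norm_num at ht; subst ht
    have : m < 80 := by omega
    interval_cases m
    all_goals interval_cases k <;> norm_num at * <;> omega

theorem u_one (r t m N u K : ℕ) (ht : t = 2 ^ r) (htm : t < m)
    (h5 : 4 * m < 5 * t) (hn1 : m * m + 1 ≤ t * N + m) (hn2 : t * N ≤ m * m + m) (hmN : m ≤ N)
    (hdt : u ∣ t) (hdN : u ∣ N) (hu : u ≤ N - t) (hK : K + 2 * m ≤ 2 * N)
    (hs : m * m + u * (t + N) ≤ u * (m + K + u) + t * N) : u = 1 := by
  have hu0 : 0 < u := Nat.pos_of_dvd_of_pos hdN (by omega)
  by_contra hne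
  have h2 : 2 ≤ u := by omega
  rcases Nat.lt_or_ge r 7 with hr | hr
  · exact u_one_small r t m N u K (by omega) ht htm h5 hn1 hn2 hmN hdt hdN hu h2 hK hs
  · have : 2 ^ 7 ≤ t := by rw [ht]; exact Nat.pow_le_pow_right (by norm_num) hr
    exact u_one_big t m N u K (by omega) htm h5 hn2 hmN hu h2 hK hs

theorem last_small (r t m N : ℕ) (hr : r ≤ 8) (ht : t = 2 ^ r) (htm : t < m)
    (h7 : 6 * m < 7 * t) (hn1 : m * m + 1 ≤ t * N + m)
    (hn2 : t * N ≤ m * m + m) (hc : m * m + 6 * m + t ≤ 5 * N + t * N + 1) :
    t = 8 ∧ m = 9 ∧ N = 11 := by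
  interval_cases r
  · norm_num at ht; subst ht; omega
  · norm_num at ht; subst ht; omega
  · norm_num at ht; subst ht; omega
  · norm_num at ht; subst ht
    have : m < 10 := by omega
    interval_cases m
    all_goals omega
  · norm_num at ht; subst ht
    have : m < 19 := by omega
    interval_cases m
    all_goals omega
  · norm_num at ht; subst ht
    have : m < 38 := by omega
    interval_cases m
    all_goals omega
  · norm_num at ht; subst ht
    have : m < 75 := by omega
    interval_cases m
    all_goals omega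
  · norm_num at ht; subst ht
    have : m < 150 := by omega
    interval_cases m
    all_goals omega
  · norm_num at ht; subst ht
    have : m < 299 := by omega
    interval_cases m
    all_goals omega

theorem last (r t m N : ℕ) (ht : t = 2 ^ r) (htm : t < m)
    (h7 : 6 * m < 7 * t) (hn1 : m * m + 1 ≤ t * N + m)
    (hn2 : t * N ≤ m * m + m) (hc : m * m + 6 * m + t ≤ 5 * N + t * N + 1) :
    t = 8 ∧ m = 9 ∧ N = 11 := by
  rcases Nat.lt_or_ge r 9 with hr | hr
  · exact last_small r t m N (by omega) ht htm h7 hn1 hn2 hc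
  · have : 2 ^ 9 ≤ t := by rw [ht]; exact Nat.pow_le_pow_right (by norm_num) hr
    exact (last_big t m N (by omega) htm h7 hn2 hc).elim

end Pool.Agent.H54SID
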