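import Pool.Agent.Helper54_SID.Sup

/-!
Sidon sets with 9 elements in a group of order 88 with 8 elements of order at most two
(MP_f1f170_co).
-/

namespace Pool.Agent.H54SID

open Finset Pool.Agent.Sid13

variable {G : Type*} [AddCommGroup G] [Fintype G] [DecidableEq G]
variable {Q : Type*} [AddCommGroup Q] [Fintype Q] [DecidableEq Q]

/-- class sizes `2, 2, 0, 1, 1, 1, 1, 1` -/
theorem eight_classes (f : Q → ℕ) (hQ : Fintype.card Q = 8) (h1 : ∑ κ, f κ = 9)
    (h2 : ∑ κ, f κ ^ 2 = 13) :
    ∃ v w z : Q, v ≠ w ∧ f v = 2 ∧ f w = 2 ∧ f z = 0 ∧ ∀ κ, κ ≠ z → 1 ≤ f κ := by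
  classical
  have hle : ∀ κ, f κ ≤ 2 := by
    intro κ
    have e1 := Finset.add_sum_erase univ f (mem_univ κ)
    have e2 := Finset.add_sum_erase univ (fun κ => f κ ^ 2) (mem_univ κ)
    rw [h1] at e1
    rw [h2] at e2
    have e3 : ∑ x ∈ univ.erase κ, f x ≤ ∑ x ∈ univ.erase κ, f x ^ 2 := by
      refine Finset.sum_le_sum fun x _ => ?_
      nlinarith [Nat.zero_le (f x), Nat.le_mul_self (f x)]
    by_contra hc
    push Not at hc
    nlinarith
  have hval : ∀ κ, f κ = 1 + (if f κ = 2 then 1 else 0) - (if f κ = 0 then 1 else 0) := by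
    intro κ
    have := hle κ
    interval_cases hf : f κ <;> simp
  let P : Finset Q := univ.filter fun κ => f κ = 2
  let O : Finset Q := univ.filter fun κ => f κ = 1
  let Z : Finset Q := univ.filter fun κ => f κ = 0
  have c1 : P.card + O.card + Z.card = 8 := by
    have h3 : ∀ κ : Q, (if f κ = 2 then 1 else 0) + (if f κ = 1 then 1 else 0) +
        (if f κ = 0 then 1 else 0) = 1 := by
      intro κ
      have := hle κ
      interval_cases hf : f κ <;> simp
    simp only [P, O, Z, Finset.card_filter]
    rw [← Finset.sum_add_distrib, ← Finset.sum_add_distrib, Finset.sum_congr rfl fun κ _ => h3 κ,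
      Finset.sum_const, Finset.card_univ, hQ, smul_eq_mul]
  have c2 : 2 * P.card + O.card = 9 := by
    have h3 : ∀ κ : Q, 2 * (if f κ = 2 then 1 else 0) + (if f κ = 1 then 1 else 0) = f κ := by
      intro κ
      have := hle κ
      interval_cases hf : f κ <;> simp
    simp only [P, O, Finset.card_filter]
    rw [Finset.mul_sum, ← Finset.sum_add_distrib, Finset.sum_congr rfl fun κ _ => h3 κ, h1]
  have c3 : 4 * P.card + O.card = 13 := by
    have h3 : ∀ κ : Q, 4 * (if f κ = 2 then 1 else 0) + (if f κ = 1 then 1 else 0) = f κ ^ 2 := by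
      intro κ
      have := hle κ
      interval_cases hf : f κ <;> simp
    simp only [P, O, Finset.card_filter]
    rw [Finset.mul_sum, ← Finset.sum_add_distrib, Finset.sum_congr rfl fun κ _ => h3 κ, h2]
  have p2 : P.card = 2 := by omega
  have z1 : Z.card = 1 := by omega
  obtain ⟨v, w, hvw, hP⟩ := Finset.card_eq_two.1 p2
  obtain ⟨z, hZ⟩ := Finset.card_eq_one.1 z1
  have hv : v ∈ P := by rw [hP]; simp
  have hw : w ∈ P := by rw [hP]; simp
  have hz : z ∈ Z := by rw [hZ]; simp
  refine ⟨v, w, z, hvw, (mem_filter.1 hv).2, (mem_filter.1 hw).2, (mem_filter.1 hz).2, ?_⟩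
  intro κ hκ
  by_contra hc
  have : κ ∈ Z := by
    simp only [Z, mem_filter, mem_univ, true_and]; omega
  rw [hZ, mem_singleton] at this
  exact hκ this

theorem PP_eq (A : Finset G) (π : G →+ Q) :
    (A.offDiag.filter fun x => π (x.1 - x.2) = 0) = PP A π := by
  unfold PP
  ext x
  simp only [mem_filter, map_sub, sub_eq_zero]

theorem no_nine {A : Finset G} (hA : IsSidon A) (π : G →+ Q) (hs : Function.Surjective π)
    (hk : ∀ x, π x = 0 ↔ ∃ y, y + y = x) (hm : A.card = 9) (ht : (TT G).card = 8)
    (hN : (HH π).card = 11) (hK : (PP A π).card = 4) (ht' : (TT G ∩ HH π).card = 1) : False := by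
  classical
  have hQ : Fintype.card Q = 8 := by rw [← card_TT π hs hk, ht]
  have s1 : ∑ κ, mm A π κ = 9 := by rw [sum_mm, hm]
  have s2 : ∑ κ, mm A π κ ^ 2 = 13 := by rw [sum_mm_sq, PP_eq, hm, hK]
  obtain ⟨v, w, z, hvw, hv, hw, hz, hpos⟩ := eight_classes (fun κ => mm A π κ) hQ s1 s2
  have htor : ∀ κ : Q, κ + κ = 0 := by
    intro κ
    obtain ⟨g, rfl⟩ := hs κ
    rw [← map_add]
    exact (hk _).2 ⟨g, rfl⟩
  set s : Q := v + w with hs'
  have hs0 : s ≠ 0 := by
    intro h
    apply hvw
    have h1 := htor w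
    have : v + w = w + w := by rw [h1, ← h]
    exact add_right_cancel this
  have hvs : v + s = w := by rw [hs', ← add_assoc, htor, zero_add]
  have hws : w + s = v := by rw [hs', add_comm v w, ← add_assoc, htor, zero_add]
  have hss : ∀ κ : Q, κ + s + s = κ := by
    intro κ
    rw [add_assoc, htor, add_zero]
  have hzs : z + s ≠ z := by
    intro h
    exact hs0 (by simpa using h)
  -- the pairs with difference in the class `s`
  let U : Finset (G × G) := (A ×ˢ A).filter fun x => π x.1 = π x.2 + s
  have hU1 : U.card = ∑ κ, mm A π κ * mm A π (κ + s) := by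
    have h := Finset.card_eq_sum_card_fiberwise (f := fun x : G × G => π x.2)
      (s := U) (t := (univ : Finset Q)) (fun a _ => by simp)
    rw [h]
    refine Finset.sum_congr rfl fun κ _ => ?_
    have : (U.filter fun x => π x.2 = κ) =
        (A.filter fun a => π a = κ + s) ×ˢ (A.filter fun a => π a = κ) := by
      ext x
      simp only [U, mem_filter, mem_product]
      constructor
      · rintro ⟨⟨⟨h1, h2⟩, h3⟩, h4⟩
        exact ⟨⟨h1, by rw [h3, h4]⟩, h2, h4⟩
      · rintro ⟨⟨h1, h2⟩, h3, h4⟩
        exact ⟨⟨⟨h1, h3⟩, by rw [h2, h4]⟩, h4⟩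
    rw [this, card_product, mm, mm, mul_comm]
  have hlow : (12 : ℤ) ≤ U.card := by
    rw [hU1]
    push_cast
    have hz0 : ∀ κ : Q, (1 : ℤ) + (if κ = v then 3 else 0) + (if κ = w then 3 else 0) -
        (if κ = z then 1 else 0) - (if κ = z + s then 1 else 0) ≤
        (mm A π κ : ℤ) * (mm A π (κ + s) : ℤ) := by
      intro κ
      have hzv : z ≠ v := by rintro rfl; omega
      have hzw : z ≠ w := by rintro rfl; omega
      have hnn : (0 : ℤ) ≤ (mm A π κ : ℤ) * (mm A π (κ + s) : ℤ) := by positivity
      by_cases h1 : κ = v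
      · have h2 : κ ≠ w := by rw [h1]; exact hvw
        have h3 : κ ≠ z := by rw [h1]; exact hzv.symm
        rw [if_pos h1, if_neg h2, if_neg h3]
        have h5 : (mm A π κ : ℤ) * (mm A π (κ + s) : ℤ) = 4 := by
          rw [h1, hvs, hv, hw]; norm_num
        rw [h5]
        split_ifs <;> norm_num
      · by_cases h2 : κ = w
        · have h3 : κ ≠ z := by rw [h2]; exact hzw.symm
          rw [if_neg h1, if_pos h2, if_neg h3]
          have h5 : (mm A π κ : ℤ) * (mm A π (κ + s) : ℤ) = 4 := by
            rw [h2, hws, hv, hw]; norm_num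
          rw [h5]
          split_ifs <;> norm_num
        · rw [if_neg h1, if_neg h2]
          by_cases h3 : κ = z
          · rw [if_pos h3]
            split_ifs <;> linarith
          · by_cases h4 : κ = z + s
            · rw [if_pos h4, if_neg h3]
              linarith
            · rw [if_neg h3, if_neg h4]
              have h5 : 1 ≤ mm A π κ := hpos κ h3
              have h6 : 1 ≤ mm A π (κ + s) := by
                apply hpos
                intro h
                apply h4
                rw [← h, hss]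
              have h7 : 1 ≤ mm A π κ * mm A π (κ + s) := Nat.mul_pos h5 h6
              have h8 : (1 : ℤ) ≤ (mm A π κ : ℤ) * (mm A π (κ + s) : ℤ) := by exact_mod_cast h7
              linarith
    refine le_trans (le_of_eq ?_) (Finset.sum_le_sum fun κ _ => hz0 κ)
    simp only [Finset.sum_sub_distrib, Finset.sum_add_distrib, Finset.sum_const, Finset.card_univ,
      hQ, Finset.sum_ite_eq', mem_univ, if_true]
    norm_num
  -- an involution in the class `s`
  have hinj : Set.InjOn (fun g => π g) (TT G : Set G) := by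
    intro g hg g' hg' h
    have h1 : g - g' ∈ TT G ∩ HH π := by
      rw [mem_inter, mem_TT, mem_HH]
      constructor
      · have e1 := mem_TT.1 hg
        have e2 := mem_TT.1 hg'
        calc g - g' + (g - g') = g + g - (g' + g') := by abel
          _ = 0 := by rw [e1, e2, sub_zero]
      · rw [map_sub, sub_eq_zero]; exact h
    obtain ⟨x, hx⟩ := Finset.card_eq_one.1 ht'
    have h0 : (0 : G) ∈ TT G ∩ HH π := by
      rw [mem_inter]; exact ⟨by rw [mem_TT]; simp, mem_HH.2 (map_zero π)⟩
    rw [hx, mem_singleton] at h1 h0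
    rw [← h0, sub_eq_zero] at h1
    exact h1
  have himg : (TT G).image (fun g => π g) = univ := by
    apply Finset.eq_univ_of_card
    rw [Finset.card_image_of_injOn hinj, ht, hQ]
  have hex : s ∈ (TT G).image (fun g => π g) := by rw [himg]; exact mem_univ _
  obtain ⟨τ, hτ, hπτ⟩ := mem_image.1 hex
  have hτ0 : τ ≠ 0 := by
    rintro rfl
    rw [map_zero] at hπτ
    exact hs0 hπτ.symm
  have hτD := TT_sub hA hτ hτ0
  have hup : U.card ≤ ((univ.filter fun g : G => π g = s).erase τ).card := by
    refine Finset.card_le_card_of_injOn (fun x => x.1 - x.2) ?_ ?_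
    · rintro ⟨x, y⟩ hxy
      simp only [U, coe_filter, mem_product, Set.mem_ofPred_eq] at hxy
      simp only [coe_erase, Set.mem_sdiff, mem_coe, mem_filter, mem_univ, true_and,
        Set.mem_singleton_iff]
      refine ⟨?_, ?_⟩
      · rw [map_sub, hxy.2]; abel
      · intro h
        exact (mem_Dm.1 hτD).2 x hxy.1.1 y hxy.1.2 h
    · rintro ⟨x, y⟩ hxy ⟨x', y'⟩ hxy' h
      simp only [U, coe_filter, mem_product, Set.mem_ofPred_eq] at hxy hxy'
      have hne : x ≠ y := by
        rintro rfl
        apply hs0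
        have := hxy.2
        simpa using this.symm
      have := hA.diff_unique hxy.1.1 hxy.1.2 hxy'.1.1 hxy'.1.2 hne h
      exact Prod.ext this.1 this.2
  have hτm : τ ∈ univ.filter fun g : G => π g = s := by
    simp only [mem_filter, mem_univ, true_and]; exact hπτ
  rw [Finset.card_erase_of_mem hτm, card_fib π hs s] at hup
  have hN' : (univ.filter fun g : G => π g = 0).card = 11 := hN
  rw [hN'] at hup
  have : (U.card : ℤ) ≤ 10 := by exact_mod_cast hup
  linarith

end Pool.Agent.H54SID
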