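import Pool.Agent.Helper54_SID.Fin
import Pool.Agent.Helper54_SID.Spec
import Pool.Agent.Helper27_Sid.Cases

/-!
MP_f1f170_co: groups attaining the Sidon bound with `|G[2]| < m`.
-/

set_option autoImplicit false

namespace Pool.Agent.H54SID

open Finset Pool.Agent.Sid13 Pool.Agent.Helper27_Sid

/-- `π : G → G / 2G` -/
theorem exists_class (G : Type) [AddCommGroup G] [Fintype G] :
    ∃ (Q : Type) (_ : AddCommGroup Q) (_ : Fintype Q) (_ : DecidableEq Q) (π : G →+ Q),
      Function.Surjective π ∧ ∀ x, π x = 0 ↔ ∃ y, y + y = x := by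
  classical
  let δ : G →+ G := nsmulAddMonoidHom 2
  have hδ : ∀ y, δ y = y + y := fun y => by
    simp [δ, two_nsmul]
  let Q : Type := G ⧸ δ.range
  letI : Fintype Q := Fintype.ofFinite Q
  let π : G →+ Q := QuotientAddGroup.mk' δ.range
  refine ⟨Q, inferInstance, inferInstance, inferInstance, π,
    QuotientAddGroup.mk'_surjective _, ?_⟩
  intro x
  have : π x = 0 ↔ x ∈ δ.range := QuotientAddGroup.eq_zero_iff x
  rw [this, AddMonoidHom.mem_range]
  constructor
  · rintro ⟨y, hy⟩; exact ⟨y, by rw [← hδ, hy]⟩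
  · rintro ⟨y, hy⟩; exact ⟨y, by rw [hδ, hy]⟩

theorem invol_eq_TT (G : Type) [AddCommGroup G] [Fintype G] [DecidableEq G] :
    invol G = (TT G).card := by
  rw [invol, TT, ← Fintype.card_subtype, ← Nat.card_eq_fintype_card]

/-- The numerical facts. -/
theorem facts (G : Type) [AddCommGroup G] [Finite G] (m : ℕ) (hA : Attains G m)
    (ht : invol G < m) :
    ∃ N u K r : ℕ, N = Nat.card (dbl G).range ∧ invol G = 2 ^ r ∧ invol G * N = Nat.card G ∧
      m * m + 1 ≤ invol G * N + m ∧ invol G * N ≤ m * m + m ∧ m ≤ N ∧ u ∣ invol G ∧ u ∣ N ∧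
      u ≤ N - invol G ∧ K + 2 * m ≤ 2 * N ∧
      m * m + u * (invol G + N) ≤ u * (m + K + u) + invol G * N ∧
      (m * m + 2 * m + invol G ≤ 2 * K + N + invol G * N + u ∨ N ≤ K + u) ∧
      (u = 1 → Odd N) ∧ ¬ (invol G = 8 ∧ m = 9 ∧ N = 11 ∧ K = 4 ∧ u = 1) := by
  classical
  have : Fintype G := Fintype.ofFinite G
  obtain ⟨h1, h2, A, hS, hc⟩ := hA
  obtain ⟨Q, _, _, _, π, hs, hk⟩ := exists_class G
  have hI := invol_eq_TT G
  have hcard := card_mul π hs hk
  have hnG : Nat.card G = Fintype.card G := Nat.card_eq_fintype_card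
  have hN : Nat.card (dbl G).range = (HH π).card := by
    rw [HH, ← Fintype.card_subtype, ← Nat.card_eq_fintype_card]
    refine Nat.card_congr (Equiv.subtypeEquivRight fun y => ?_)
    rw [AddMonoidHom.mem_range, hk]
    rfl
  obtain ⟨r, hr⟩ := invol_pow (G := G)
  have hne : A.Nonempty := by
    rw [← Finset.card_pos]; omega
  have hmN : A.card ≤ (HH π).card := by
    have := card_sdiff_SS hS π hk
    omega
  have e1 := card_sdiff_SS hS π hk
  have e2 := card_PP_le hS π hk
  have e3 := card_HH_Dm hS π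
  have e4 := card_RR hS π
  have e5 := card_Dm hS hne
  have e6 := core hS π hs hk (by rw [hc, ← hI]; exact ht)
  have e7 := inter_le π (by rw [← hI]; omega)
  have e8 := sup_ineq hS π hs hk
  have e9 : A.card ^ 2 = A.card * A.card := by ring
  refine ⟨(HH π).card, (TT G ∩ HH π).card, (PP A π).card, r, hN.symm, hr, ?_, ?_, ?_, ?_, ?_, ?_,
    ?_, ?_, ?_, ?_, ?_, ?_⟩
  · rw [hI, hnG, hcard]
  · rw [hI, hcard, ← hnG]; omega
  · rw [hI, hcard, ← hnG]; omega
  · omega
  · rw [hI]; exact dvd_left π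
  · exact dvd_right π
  · rw [hI]; exact e7
  · omega
  · rw [hI, hcard, ← hc]
    rw [e9] at e8
    exact e8
  · rw [hI, hcard, ← hc]
    rcases e6 with e6 | e6
    · left
      have hpos : 0 < (TT G).card := Finset.card_pos.2 ⟨0, by rw [mem_TT]; simp⟩
      omega
    · right; exact e6
  · intro hu
    rw [← Nat.not_even_iff_odd]
    intro hev
    have hd : 2 ∣ Nat.card (dbl G).range := by rw [hN]; exact hev.two_dvd
    haveI : Fact (Nat.Prime 2) := ⟨Nat.prime_two⟩
    obtain ⟨x, hx⟩ := exists_prime_addOrderOf_dvd_card' 2 hd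
    have hx2 : x + x = 0 := by
      rw [← two_nsmul]
      exact addOrderOf_dvd_iff_nsmul_eq_zero.1 (by rw [hx])
    have hx0 : x ≠ 0 := by
      rintro rfl
      simp at hx
    obtain ⟨y, hy⟩ := Finset.card_eq_one.1 hu
    have m0 : (0 : G) ∈ TT G ∩ HH π := by
      rw [mem_inter]; exact ⟨by rw [mem_TT]; simp, mem_HH.2 (map_zero π)⟩
    have m1 : (x : G) ∈ TT G ∩ HH π := by
      rw [mem_inter, mem_TT, mem_HH, hk]
      refine ⟨?_, ?_⟩
      · have := congrArg Subtype.val hx2
        simpa using this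
      · obtain ⟨z, hz⟩ := x.2
        exact ⟨z, hz⟩
    rw [hy, mem_singleton] at m0 m1
    apply hx0
    apply Subtype.ext
    rw [m1, ← m0]; rfl
  · rintro ⟨g1, g2, g3, g4, g5⟩
    exact no_nine hS π hs hk (by omega) (by rw [← hI]; exact g1) g3 g4 g5

/-- Part (1). -/
theorem part_one (G : Type) [AddCommGroup G] [Finite G] (m : ℕ) (hA : Attains G m)
    (ht : invol G < m) : invol G * (5 * m + 2 * invol G) ≤ 6 * Nat.card G := by
  obtain ⟨N, u, K, r, hN, hr, hn, h1, h2, h3, h4, h5, h6, h7, h8, h9, h10, h11⟩ := facts G m hA ht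
  rw [← hn]
  have : 5 * m + 2 * invol G ≤ 6 * N := by
    rcases h9 with h9 | h9 <;> omega
  calc invol G * (5 * m + 2 * invol G) ≤ invol G * (6 * N) := Nat.mul_le_mul_left _ this
    _ = 6 * (invol G * N) := by ring

/-- Part (2). -/
theorem part_two (G : Type) [AddCommGroup G] [Finite G] (m : ℕ) (hA : Attains G m)
    (ht : invol G < m) (h54 : 4 * m < 5 * invol G) :
    Odd (Nat.card (dbl G).range) ∧
      m ^ 2 + 6 * m + invol G ≤ Nat.card G + 5 * Nat.card (dbl G).range + 1 := by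
  obtain ⟨N, u, K, r, hN, hr, hn, h1, h2, h3, h4, h5, h6, h7, h8, h9, h10, h11⟩ := facts G m hA ht
  have hu := u_one r (invol G) m N u K hr ht h54 h1 h2 h3 h4 h5 h6 h7 h8
  rw [← hN, ← hn]
  refine ⟨h10 hu, ?_⟩
  have h12 : 4 * N ≤ 5 * m + 4 := by
    by_contra hc
    push Not at hc
    have h1 : 5 * invol G * (4 * N) ≤ 20 * (m * m + m) := by nlinarith
    have h3 : (4 * m + 1) * (5 * m + 5) ≤ 5 * invol G * (4 * N) :=
      Nat.mul_le_mul (by omega) (by omega)
    nlinarith
  have e9 : m ^ 2 = m * m := by ring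
  rw [e9]
  rcases h9 with h9 | h9
  · omega
  · have : m ≤ 2 := by omega
    interval_cases m <;> omega

/-- Part (3). -/
theorem part_three (G : Type) [AddCommGroup G] [Finite G] (m : ℕ) (hA : Attains G m)
    (ht : invol G < m) : 7 * invol G ≤ 6 * m := by
  by_contra hc
  push Not at hc
  have h54 : 4 * m < 5 * invol G := by omega
  obtain ⟨h12, h13⟩ := part_two G m hA ht h54
  obtain ⟨N, u, K, r, hN, hr, hn, h1, h2, h3, h4, h5, h6, h7, h8, h9, h10, h11⟩ := facts G m hA ht
  have hu := u_one r (invol G) m N u K hr ht h54 h1 h2 h3 h4 h5 h6 h7 h8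
  have e9 : m ^ 2 = m * m := by ring
  rw [← hN, ← hn, e9] at h13
  obtain ⟨k1, k2, k3⟩ := last r (invol G) m N hr ht hc h1 h2 (by omega)
  apply h11
  refine ⟨k1, k2, k3, ?_, hu⟩
  rw [k1, k2, k3, hu] at h9
  rw [k2, k3] at h7
  rcases h9 with h9 | h9 <;> omega

end Pool.Agent.H54SID
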