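import Pool.Agent.Helper54_SID.Core

/-!
Sidon sets with at most `2|A|` non-differences in a group with many involutions
(MP_f1f170_co): the basic inequality.
-/

namespace Pool.Agent.H54SID

open Finset Pool.Agent.Sid13

variable {G : Type*} [AddCommGroup G] [Fintype G] [DecidableEq G]
variable {Q : Type*} [AddCommGroup Q] [Fintype Q] [DecidableEq Q]

theorem core {A : Finset G} (hA : IsSidon A) (π : G →+ Q) (hs : Function.Surjective π)
    (hk : ∀ x, π x = 0 ↔ ∃ y, y + y = x) (ht : (TT G).card < A.card) :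
    A.card ≤ (PP A π).card + 2 * (HH π \ SS A).card + (RR A π).card ∨
      (HH π).card ≤ (PP A π).card + (TT G ∩ HH π).card := by
  classical
  by_contra hcon
  push Not at hcon
  obtain ⟨hc1, hc2⟩ := hcon
  have hex : ∃ h ∈ HH π, h ∉ TT G ∧ ¬ Even (2 + (if h ∈ Dm A then 1 else 0) + A.card) := by
    rcases Nat.even_or_odd A.card with hev | hodd
    · -- `m` even
      have h1 := card_HH_Dm hA π
      have h0 : (0 : G) ∈ TT G ∩ HH π := by
        rw [mem_inter]; exact ⟨by rw [mem_TT]; simp, mem_HH.2 (map_zero π)⟩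
      have h2 : ∃ h ∈ HH π ∩ Dm A, h ∉ (TT G ∩ HH π).erase 0 := by
        by_contra hcc
        push Not at hcc
        have h3 := Finset.card_le_card (show HH π ∩ Dm A ⊆ (TT G ∩ HH π).erase 0 from hcc)
        rw [Finset.card_erase_of_mem h0] at h3
        have h4 : 0 < (TT G ∩ HH π).card := Finset.card_pos.2 ⟨0, h0⟩
        omega
      obtain ⟨h, hh, hT⟩ := h2
      rw [mem_inter] at hh
      refine ⟨h, hh.1, ?_, ?_⟩
      · intro hT'
        apply hT
        rw [mem_erase, mem_inter]
        exact ⟨(mem_Dm.1 hh.2).1, hT', hh.1⟩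
      · rw [if_pos hh.2]
        intro he
        obtain ⟨k, hk1⟩ := hev
        obtain ⟨l, hl⟩ := he
        omega
    · -- `m` odd
      have hq : Fintype.card Q < A.card := by
        rw [← card_two_torsion π hs hk]; exact ht
      obtain ⟨a, ha, b, hb, hab, hπ⟩ := Finset.exists_ne_map_eq_of_card_lt_of_maps_to
        (s := A) (t := (univ : Finset Q)) (f := fun a => π a) (by rw [Finset.card_univ]; exact hq)
        (fun a _ => mem_univ _)
      have hD : a - b ∉ Dm A := fun hD => (mem_Dm.1 hD).2 a ha b hb rfl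
      refine ⟨a - b, ?_, ?_, ?_⟩
      · rw [mem_HH, map_sub, sub_eq_zero]; exact hπ
      · intro hT
        exact hD (TT_sub hA hT (sub_ne_zero.2 hab))
      · rw [if_neg hD]
        intro he
        obtain ⟨k, hk1⟩ := hodd
        obtain ⟨l, hl⟩ := he
        omega
  obtain ⟨h, hh, hT, hne⟩ := hex
  obtain ⟨b, hb, g1, g2, g3, g4⟩ := exists_good hA π hk hh hc1
  exact hne (good_parity hA π hk hh hT hb g1 g2 g3 g4)

theorem card_sdiff_SS {A : Finset G} (hA : IsSidon A) (π : G →+ Q)
    (hk : ∀ x, π x = 0 ↔ ∃ y, y + y = x) :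
    (HH π \ SS A).card + A.card = (HH π).card := by
  rw [← card_SS hA]
  exact Finset.card_sdiff_add_card_eq_card (SS_sub A π hk)

theorem card_TT (π : G →+ Q) (hs : Function.Surjective π)
    (hk : ∀ x, π x = 0 ↔ ∃ y, y + y = x) : (TT G).card = Fintype.card Q :=
  card_two_torsion π hs hk

theorem nat_card_ker (π : G →+ Q) : Nat.card π.ker = (HH π).card := by
  rw [HH, ← Fintype.card_subtype, ← Nat.card_eq_fintype_card]
  exact Nat.card_congr (Equiv.subtypeEquivRight fun y => by rw [AddMonoidHom.mem_ker])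

theorem card_mul (π : G →+ Q) (hs : Function.Surjective π)
    (hk : ∀ x, π x = 0 ↔ ∃ y, y + y = x) :
    (TT G).card * (HH π).card = Fintype.card G := by
  rw [card_TT π hs hk, ← nat_card_ker π]
  have h3 : Nat.card G = Nat.card (G ⧸ π.ker) * Nat.card π.ker :=
    AddSubgroup.card_eq_card_quotient_mul_card_addSubgroup _
  have h4 : Nat.card (G ⧸ π.ker) = Nat.card Q :=
    Nat.card_congr (QuotientAddGroup.quotientKerEquivOfSurjective π hs).toEquiv
  rw [h4, Nat.card_eq_fintype_card, Nat.card_eq_fintype_card] at h3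
  exact h3.symm

/-- doubling -/
def dd (G : Type*) [AddCommGroup G] : G →+ G := nsmulAddMonoidHom 2

theorem dd_apply (g : G) : dd G g = g + g := by simp [dd, two_nsmul]

theorem nat_card_ddker : Nat.card (dd G).ker = (TT G).card := by
  rw [TT, ← Fintype.card_subtype, ← Nat.card_eq_fintype_card]
  exact Nat.card_congr (Equiv.subtypeEquivRight fun y => by
    rw [AddMonoidHom.mem_ker, dd_apply])

theorem nat_card_inf (π : G →+ Q) :
    Nat.card ((dd G).ker ⊓ π.ker : AddSubgroup G) = (TT G ∩ HH π).card := by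
  have : TT G ∩ HH π = univ.filter fun g => g + g = 0 ∧ π g = 0 := by
    ext g
    simp only [mem_inter, mem_TT, mem_HH, mem_filter, mem_univ, true_and]
  rw [this, ← Fintype.card_subtype, ← Nat.card_eq_fintype_card]
  exact Nat.card_congr (Equiv.subtypeEquivRight fun y => by
    rw [AddSubgroup.mem_inf, AddMonoidHom.mem_ker, AddMonoidHom.mem_ker, dd_apply])

theorem dvd_left (π : G →+ Q) : (TT G ∩ HH π).card ∣ (TT G).card := by
  rw [← nat_card_inf, ← nat_card_ddker]
  exact AddSubgroup.card_dvd_of_le inf_le_left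

theorem dvd_right (π : G →+ Q) : (TT G ∩ HH π).card ∣ (HH π).card := by
  rw [← nat_card_inf, ← nat_card_ker]
  exact AddSubgroup.card_dvd_of_le inf_le_right

theorem inter_le (π : G →+ Q) (h : (TT G).card < (HH π).card) :
    (TT G ∩ HH π).card ≤ (HH π).card - (TT G).card :=
  Nat.le_of_dvd (by omega) (Nat.dvd_sub (dvd_right π) (dvd_left π))

end Pool.Agent.H54SID
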