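import Pool.Agent.Helper54_SID.Main
import Pool.Agent.Helper78_Sid.C

/-!
Sidon sets with at most `2|A|` non-differences in a group with many involutions
(MP_f1f170_co): the classes modulo `G[2] + 2G`.
-/

namespace Pool.Agent.H54SID

open Finset Pool.Agent.Sid13

variable {G : Type*} [AddCommGroup G] [Fintype G] [DecidableEq G]
variable {Q : Type*} [AddCommGroup Q] [Fintype Q] [DecidableEq Q]

theorem index_sup (π : G →+ Q) (hs : Function.Surjective π)
    (hk : ∀ x, π x = 0 ↔ ∃ y, y + y = x) :
    ((dd G).ker ⊔ π.ker).index = (TT G ∩ HH π).card := by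
  have hN : 0 < (HH π).card := Finset.card_pos.2 ⟨0, mem_HH.2 (map_zero π)⟩
  have h1 : (dd G).ker.relIndex ((dd G).ker ⊔ π.ker) * ((dd G).ker ⊔ π.ker).index =
      (dd G).ker.index := AddSubgroup.relIndex_mul_index le_sup_left
  rw [AddSubgroup.relIndex_sup_left] at h1
  have h2 : (dd G).ker.index = (HH π).card := by
    have h3 := AddSubgroup.card_mul_index (dd G).ker
    rw [nat_card_ddker, Nat.card_eq_fintype_card, ← card_mul π hs hk] at h3
    have h4 : 0 < (TT G).card := Finset.card_pos.2 ⟨0, by rw [mem_TT]; simp⟩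
    exact Nat.eq_of_mul_eq_mul_left h4 h3
  have h5 : (dd G).ker.relIndex π.ker * (TT G ∩ HH π).card = (HH π).card := by
    have h6 : ((dd G).ker ⊓ π.ker).relIndex π.ker * π.ker.index = ((dd G).ker ⊓ π.ker).index :=
      AddSubgroup.relIndex_mul_index inf_le_right
    rw [AddSubgroup.inf_relIndex_right] at h6
    have h7 := AddSubgroup.card_mul_index ((dd G).ker ⊓ π.ker)
    have h8 := AddSubgroup.card_mul_index π.ker
    rw [nat_card_inf] at h7
    rw [nat_card_ker] at h8
    have h9 : 0 < π.ker.index := by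
      rcases Nat.eq_zero_or_pos π.ker.index with h0 | h0
      · rw [h0, mul_zero] at h8
        have := Nat.card_pos (α := G)
        omega
      · exact h0
    have h10 : π.ker.index * ((dd G).ker.relIndex π.ker * (TT G ∩ HH π).card) =
        π.ker.index * (HH π).card := by
      calc π.ker.index * ((dd G).ker.relIndex π.ker * (TT G ∩ HH π).card) =
          (TT G ∩ HH π).card * ((dd G).ker.relIndex π.ker * π.ker.index) := by ring
        _ = Nat.card G := by rw [h6, h7]
        _ = π.ker.index * (HH π).card := by rw [← h8]; ring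
    exact Nat.eq_of_mul_eq_mul_left h9 h10
  rw [h2, ← h5] at h1
  have h11 : 0 < (dd G).ker.relIndex π.ker := by
    rcases Nat.eq_zero_or_pos ((dd G).ker.relIndex π.ker) with h0 | h0
    · rw [h0, zero_mul] at h5; omega
    · exact h0
  exact Nat.eq_of_mul_eq_mul_left h11 h1

/-- non-differences in `G[2] + 2G` -/
theorem card_sup_Dm {A : Finset G} (hA : IsSidon A) (π : G →+ Q) {R : Type*} [AddCommGroup R]
    [Fintype R] [DecidableEq R] (σ : G →+ R) (hσ : σ.ker = (dd G).ker ⊔ π.ker) :
    (TT G).card + (HH π ∩ Dm A).card ≤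
      (univ.filter fun g : G => σ g = 0 ∧ g ∈ Dm A).card + (TT G ∩ HH π).card := by
  classical
  have h0T : (0 : G) ∈ TT G := by rw [mem_TT]; simp
  have h0H : (0 : G) ∈ TT G ∩ HH π := by
    rw [mem_inter]; exact ⟨h0T, mem_HH.2 (map_zero π)⟩
  have h3 : ((TT G).erase 0) ∩ (HH π ∩ Dm A) = (TT G ∩ HH π).erase 0 := by
    ext x
    simp only [mem_erase, mem_inter]
    constructor
    · rintro ⟨⟨h0, h⟩, h', _⟩
      exact ⟨h0, h, h'⟩
    · rintro ⟨h0, h, h'⟩
      exact ⟨⟨h0, h⟩, h', TT_sub hA h h0⟩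
  have h4 := Finset.card_union_add_card_inter ((TT G).erase 0) (HH π ∩ Dm A)
  rw [h3, Finset.card_erase_of_mem h0T, Finset.card_erase_of_mem h0H] at h4
  have h5 : 0 < (TT G).card := Finset.card_pos.2 ⟨0, h0T⟩
  have h6 : 0 < (TT G ∩ HH π).card := Finset.card_pos.2 ⟨0, h0H⟩
  have h7 : ((TT G).erase 0 ∪ (HH π ∩ Dm A)) ⊆ univ.filter fun g : G => σ g = 0 ∧ g ∈ Dm A := by
    intro x hx
    simp only [mem_filter, mem_univ, true_and]
    rw [← AddMonoidHom.mem_ker, hσ]
    rcases mem_union.1 hx with h | h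
    · rw [mem_erase] at h
      refine ⟨?_, TT_sub hA h.2 h.1⟩
      apply AddSubgroup.mem_sup_left
      rw [AddMonoidHom.mem_ker, dd_apply]
      exact mem_TT.1 h.2
    · rw [mem_inter] at h
      refine ⟨?_, h.2⟩
      apply AddSubgroup.mem_sup_right
      rw [AddMonoidHom.mem_ker]
      exact mem_HH.1 h.1
  have h8 := Finset.card_le_card h7
  omega

theorem sup_ineq {A : Finset G} (hA : IsSidon A) (π : G →+ Q) (hs : Function.Surjective π)
    (hk : ∀ x, π x = 0 ↔ ∃ y, y + y = x) :
    A.card ^ 2 + (TT G ∩ HH π).card * ((TT G).card + (HH π).card) ≤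
      (TT G ∩ HH π).card * (A.card + (PP A π).card + (TT G ∩ HH π).card) +
        Fintype.card G := by
  classical
  let K : AddSubgroup G := (dd G).ker ⊔ π.ker
  let R : Type _ := G ⧸ K
  letI : Fintype R := Fintype.ofFinite R
  let σ : G →+ R := QuotientAddGroup.mk' K
  have hσs : Function.Surjective σ := QuotientAddGroup.mk'_surjective _
  have hσ : σ.ker = (dd G).ker ⊔ π.ker := QuotientAddGroup.ker_mk' K
  have hR : Fintype.card R = (TT G ∩ HH π).card := by
    rw [← index_sup π hs hk, ← Nat.card_eq_fintype_card]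
    rfl
  have h1 := sum_mm_sq A σ
  have h2 := card_offDiag_ker hA σ
  have h3 := ker_split (A := A) σ
  have h4 := Sid13.card_ker σ hσs
  have h5 := card_sup_Dm hA π σ hσ
  have h6 := card_HH_Dm hA π
  have h7 := sum_mm A σ
  -- Cauchy-Schwarz
  have h8 : A.card ^ 2 ≤ Fintype.card R * ∑ κ, mm A σ κ ^ 2 := by
    rw [← h7]
    have := sq_sum_le_card_mul_sum_sq (s := (univ : Finset R)) (f := fun κ => mm A σ κ)
    simpa using this
  rw [h1, h2, hR] at h8
  rw [hR] at h4
  set a := (univ.filter fun g : G => σ g = 0 ∧ g ≠ 0 ∧ g ∉ Dm A).card with ha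
  set b := (univ.filter fun g : G => σ g = 0 ∧ g ∈ Dm A).card with hb
  set k := (univ.filter fun g : G => σ g = 0).card with hkk
  set t' := (TT G ∩ HH π).card with ht'
  rw [h4]
  have h9 : A.card + a + ((TT G).card + (HH π).card) ≤ A.card + (PP A π).card + t' + k := by
    omega
  calc A.card ^ 2 + t' * ((TT G).card + (HH π).card) ≤
      t' * (A.card + a) + t' * ((TT G).card + (HH π).card) := by omega
    _ = t' * (A.card + a + ((TT G).card + (HH π).card)) := by ring
    _ ≤ t' * (A.card + (PP A π).card + t' + k) := Nat.mul_le_mul_left _ h9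
    _ = t' * (A.card + (PP A π).card + t') + t' * k := by ring

end Pool.Agent.H54SID
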